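import Pool.Agent.W_448win_h16.LowA
import Pool.Agent.W_448win_h16.LowC
import Pool.Agent.W_448win_h16.RkC
import Pool.Agent.W_MP_448cb3_h96.Struct

/-! Straight upper part: the levels `0, …, i` all have the same size. -/

namespace Pool.Agent.GaussPoset.Win

set_option linter.unusedSectionVars false

open Finset

universe u

variable {P : Type u} [Fintype P] [PartialOrder P] [DecidableEq P] {r : ℕ}

/-- the levels `0, …, i` all have the same size -/
def Strt (P : Type u) [Fintype P] [PartialOrder P] [DecidableEq P] (i : ℕ) : Prop :=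
  ∀ k ≤ i, (lv P k).card = (lv P 0).card

/-- every element of level `< i` has exactly one lower cover -/
lemma dn_one (H : Gr P r) {i : ℕ} (hi : i ≤ r) (hS : Strt P i) {u : P} {k : ℕ}
    (hu : lev u + 1 = k) (hk : k ≤ i) : dn k u = 1 := by
  classical
  have h1 := count_two H k (by omega)
  rw [hS k hk] at h1
  have h2 : ((univ.filter (fun a : P => lev a + 1 = k)).filter (fun a => dn k a = 2)).card = 0 := by
    omega
  rw [Finset.card_eq_zero, Finset.filter_eq_empty_iff] at h2
  have h3 : dn k u ≠ 2 := h2 (by rw [Finset.mem_filter]; exact ⟨mem_univ _, hu⟩)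
  have h4 := dn_pos H hu (by omega)
  have h5 := (energy_one H (j := k) (by omega)).1 u hu
  omega

/-- every element of level `1, …, i` has exactly one upper cover -/
lemma up_one (H : Gr P r) {i : ℕ} (hi : i ≤ r) (hS : Strt P i) {v : P} {k : ℕ}
    (hv : lev v = k + 1) (hk : k + 1 ≤ i) : up k v = 1 := by
  classical
  have h1 := dn_sum_eq_up_sum (P := P) k
  have h2 : ∑ a ∈ lv P k, dn (k + 1) a = (lv P k).card := by
    rw [Finset.card_eq_sum_ones]
    refine Finset.sum_congr rfl fun a ha => ?_
    rw [mem_lv] at ha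
    exact dn_one H hi hS (by omega) hk
  rw [h2, hS k (by omega), ← hS (k + 1) hk, Finset.card_eq_sum_ones] at h1
  by_contra hne
  have h3 : ∑ a ∈ lv P (k + 1), 1 < ∑ a ∈ lv P (k + 1), up k a := by
    refine Finset.sum_lt_sum (fun a ha => up_pos (mem_lv.mp ha)) ⟨v, mem_lv.mpr hv, ?_⟩
    have := up_pos hv
    omega
  omega

lemma dn_unique (H : Gr P r) {i : ℕ} (hi : i ≤ r) (hS : Strt P i) {u z z' : P}
    (hu : lev u < i) (hz : z < u) (hz' : z' < u) (h1 : lev z = lev u + 1)
    (h2 : lev z' = lev u + 1) : z = z' := by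
  classical
  have h3 := dn_one H hi hS (u := u) rfl (by omega)
  unfold dn at h3
  rw [Finset.card_eq_one] at h3
  obtain ⟨a, ha⟩ := h3
  have hza : z ∈ ({a} : Finset P) := by
    rw [← ha, Finset.mem_filter, mem_lv]
    exact ⟨h1, hz⟩
  have hza' : z' ∈ ({a} : Finset P) := by
    rw [← ha, Finset.mem_filter, mem_lv]
    exact ⟨h2, hz'⟩
  rw [Finset.mem_singleton] at hza hza'
  rw [hza, hza']

lemma up_unique (H : Gr P r) {i : ℕ} (hi : i ≤ r) (hS : Strt P i) {v y y' : P}
    (hv : lev v ≤ i) (hy : v < y) (hy' : v < y') (h1 : lev v = lev y + 1)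
    (h2 : lev v = lev y' + 1) : y = y' := by
  classical
  have h3 := up_one H hi hS (v := v) (k := lev y) h1 (by omega)
  unfold up at h3
  rw [Finset.card_eq_one] at h3
  obtain ⟨a, ha⟩ := h3
  have hza : y ∈ ({a} : Finset P) := by
    rw [← ha, Finset.mem_filter, mem_lv]
    exact ⟨rfl, hy⟩
  have hza' : y' ∈ ({a} : Finset P) := by
    rw [← ha, Finset.mem_filter, mem_lv]
    exact ⟨by omega, hy'⟩
  rw [Finset.mem_singleton] at hza hza'
  rw [hza, hza']

/-- in the chain above a site: two elements below `u` of the same level `≤ i` are equal -/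
lemma below_unique (H : Gr P r) {i : ℕ} (hi : i ≤ r) (hS : Strt P i) {v v' : P}
    (hv : lev v = lev v') (hvi : lev v ≤ i) : ∀ (n : ℕ) (u : P), lev v ≤ lev u + n → v ≤ u →
      v' ≤ u → v = v' := by
  intro n
  induction n with
  | zero =>
    intro u h1 h2 h3
    have h4 : v = u := by
      by_contra hne
      have := lev_strictAnti (lt_of_le_of_ne h2 hne)
      omega
    have h5 : v' = u := by
      by_contra hne
      have := lev_strictAnti (lt_of_le_of_ne h3 hne)
      omega
    rw [h4, h5]
  | succ n ih =>
    intro u h1 h2 h3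
    by_cases h4 : v = u
    · by_contra hne
      have := lev_strictAnti (lt_of_le_of_ne h3 (by rw [← h4]; exact fun h => hne h.symm))
      rw [← h4] at this
      omega
    · have h6 : v' ≠ u := by
        rintro rfl
        have := lev_strictAnti (lt_of_le_of_ne h2 h4)
        omega
      obtain ⟨z, h7, h8⟩ := exists_le_covBy_of_lt (lt_of_le_of_ne h2 h4)
      obtain ⟨z', h9, h10⟩ := exists_le_covBy_of_lt (lt_of_le_of_ne h3 h6)
      have h11 := H.covBy_iff.1 h8
      have h12 := H.covBy_iff.1 h10
      have h13 := lev_strictAnti (lt_of_le_of_ne h2 h4)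
      have h14 := dn_unique H hi hS (by omega) h11.1 h12.1 h11.2 h12.2
      rw [← h14] at h9
      exact ih z (by omega) h7 h9

/-- the number of elements of level `k ≤ i` above an element below the window does not depend on `k` -/
lemma up_const (H : Gr P r) {i : ℕ} (hi : i ≤ r) (hS : Strt P i) {w : P} (hw : i < lev w) :
    ∀ k ≤ i, up k w = up i w := by
  classical
  have step : ∀ k, k + 1 ≤ i → up k w = up (k + 1) w := by
    intro k hk
    apply le_antisymm
    · unfold up
      have h1 : ∀ x ∈ (lv P k).filter (fun x => w < x), ∃ z, lev z = k + 1 ∧ w < z ∧ z < x := by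
        intro x hx
        rw [Finset.mem_filter, mem_lv] at hx
        obtain ⟨z, h7, h8⟩ := exists_le_covBy_of_lt hx.2
        have h11 := H.covBy_iff.1 h8
        refine ⟨z, by omega, lt_of_le_of_ne h7 ?_, h11.1⟩
        rintro rfl
        omega
      choose! g hg using h1
      refine Finset.card_le_card_of_injOn g ?_ ?_
      · intro x hx
        have hx' := Finset.mem_coe.1 hx
        have h2 := hg x hx'
        rw [Finset.mem_coe, Finset.mem_filter, mem_lv]
        exact ⟨h2.1, h2.2.1⟩
      · intro x hx y hy hxy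
        have h2 := hg x (Finset.mem_coe.1 hx)
        have h3 := hg y (Finset.mem_coe.1 hy)
        have hx' := Finset.mem_coe.1 hx
        have hy' := Finset.mem_coe.1 hy
        rw [Finset.mem_filter, mem_lv] at hx' hy'
        rw [← hxy] at h3
        exact up_unique H hi hS (v := g x) (by omega) h2.2.2 h3.2.2 (by omega) (by omega)
    · unfold up
      have h1 : ∀ z ∈ (lv P (k + 1)).filter (fun x => w < x), ∃ x, lev x = k ∧ w < x ∧ z < x := by
        intro z hz
        rw [Finset.mem_filter, mem_lv] at hz
        obtain ⟨x, h7, h8⟩ := exists_lev_succ hz.1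
        exact ⟨x, h8, hz.2.trans h7, h7⟩
      choose! g hg using h1
      refine Finset.card_le_card_of_injOn g ?_ ?_
      · intro x hx
        have hx' := Finset.mem_coe.1 hx
        have h2 := hg x hx'
        rw [Finset.mem_coe, Finset.mem_filter, mem_lv]
        exact ⟨h2.1, h2.2.1⟩
      · intro x hx y hy hxy
        have h2 := hg x (Finset.mem_coe.1 hx)
        have h3 := hg y (Finset.mem_coe.1 hy)
        have hx' := Finset.mem_coe.1 hx
        have hy' := Finset.mem_coe.1 hy
        rw [Finset.mem_filter, mem_lv] at hx' hy'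
        rw [← hxy] at h3
        exact dn_unique H hi hS (u := g x) (by omega) h2.2.2 h3.2.2 (by omega) (by omega)
  have key : ∀ n k, k + n = i → up k w = up i w := by
    intro n
    induction n with
    | zero => intro k hk; rw [show k = i by omega]
    | succ n ih => intro k hk; rw [step k (by omega), ih (k + 1) (by omega)]
  intro k hk
  exact key (i - k) k (by omega)

/-- the sites forced from above are at most as many as the free elements above -/
theorem AU_le (H : Gr P r) {i : ℕ} (hi : i ≤ r) (hS : Strt P i) (e : P → ℕ) :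
    (AU i e).card ≤ pU i e := by
  classical
  have h1 : ∀ v ∈ AU i e, ∃ u, v < u ∧ lev u < i ∧ ¬ FU e u ∧ ¬ GD e u := by
    intro v hv
    unfold AU at hv
    rw [Finset.mem_filter, mem_lv] at hv
    obtain ⟨hvi, y, hvy, hlt⟩ := hv
    obtain ⟨u0, hu0, hmax⟩ := Finset.exists_max_image (univ.filter (fun u : P => v < u)) e
      ⟨y, by rw [Finset.mem_filter]; exact ⟨mem_univ _, hvy.lt⟩⟩
    obtain ⟨u1, hu1, hmax1⟩ := Finset.exists_max_image
      (univ.filter (fun u : P => v < u ∧ e u = e u0)) (fun u => lev u)
      ⟨u0, by rw [Finset.mem_filter] at hu0 ⊢; exact ⟨mem_univ _, hu0.2, rfl⟩⟩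
    rw [Finset.mem_filter] at hu0 hu1
    have hmax' : ∀ t : P, v < t → e t ≤ e u0 := fun t ht => hmax t (by
      rw [Finset.mem_filter]; exact ⟨mem_univ _, ht⟩)
    have hmax1' : ∀ t : P, v < t → e t = e u0 → lev t ≤ lev u1 := fun t ht h => hmax1 t (by
      rw [Finset.mem_filter]; exact ⟨mem_univ _, ht, h⟩)
    have hlu : lev u1 < i := by
      have := lev_strictAnti hu1.2.1
      omega
    refine ⟨u1, hu1.2.1, hlu, ?_, ?_⟩
    · rintro ⟨t, ht, he⟩
      have h3 := hmax' t (hu1.2.1.trans ht.lt)
      have h4 := hu1.2.2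
      omega
    · rintro ⟨z, hz, he⟩
      have h2 := H.covBy_iff.1 hz
      obtain ⟨z', h7, h8⟩ := exists_le_covBy_of_lt hu1.2.1
      have h9 := H.covBy_iff.1 h8
      have h10 := dn_unique H hi hS hlu h2.1 h9.1 h2.2 h9.2
      subst h10
      rcases eq_or_lt_of_le h7 with h11 | h11
      · subst h11
        have h12 := hmax' y hvy.lt
        have h4 := hu1.2.2
        omega
      · have h12 := hmax' z h11
        have h4 := hu1.2.2
        have h13 := hmax1' z h11 (by omega)
        omega
  choose! g hg using h1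
  unfold pU
  refine Finset.card_le_card_of_injOn g ?_ ?_
  · intro v hv
    have h2 := hg v (Finset.mem_coe.1 hv)
    rw [Finset.mem_coe, Finset.mem_filter]
    exact ⟨mem_univ _, h2.2⟩
  · intro v hv v' hv' hvv
    have h2 := hg v (Finset.mem_coe.1 hv)
    have h3 := hg v' (Finset.mem_coe.1 hv')
    have h4 := Finset.mem_coe.1 hv
    have h5 := Finset.mem_coe.1 hv'
    unfold AU at h4 h5
    rw [Finset.mem_filter, mem_lv] at h4 h5
    rw [← hvv] at h3
    exact below_unique H hi hS (by omega) (by omega) i (g v) (by omega) h2.1.le h3.1.le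

end Pool.Agent.GaussPoset.Win
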