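import Pool.Agent.W_448H_h94.HuA

/-! Configurations which are not cheap dominate a hull configuration. -/

namespace Pool.Agent.GaussPoset.Win

set_option linter.unusedSectionVars false

open Finset

universe u

variable {P : Type u} [Fintype P] [PartialOrder P] [DecidableEq P] {r : ℕ}

open Classical in
/-- the hull configuration of `w` -/
noncomputable def ew (i : ℕ) (w : P) : P → ℕ := fun x => if w ≤ x then lev x - i else 0

/-- the energy of the hull configuration of `w` -/
noncomputable def Ei (i : ℕ) (w : P) : ℕ := ∑ x, ew i w x

/-- below a lower element with `GU` no label exceeds its label -/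
lemma GU_below (H : Gr P r) {i : ℕ} {e : P → ℕ} (hA : AdmL i e) : ∀ (n : ℕ) (z x : P),
    i < lev z → GU e z → lev x ≤ lev z + n → x ≤ z → e x ≤ e z := by
  intro n
  induction n with
  | zero =>
    intro z x hz hG hx hxz
    rcases eq_or_lt_of_le hxz with h | h
    · rw [h]
    · have := lev_strictAnti h
      omega
  | succ n ih =>
    intro z x hz hG hx hxz
    rcases eq_or_lt_of_le hxz with h | h
    · rw [h]
    · obtain ⟨z', h1, h2⟩ := exists_le_covBy_of_lt h
      have h3 := (H.covBy_iff.1 h2).2
      have h4 : e z' ≤ e z := by
        by_contra hcon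
        exact hA z hz ⟨⟨z', h2, by omega⟩, hG⟩
      exact (ih z' x (by omega) ⟨z, h2, h4⟩ (by omega) h1).trans h4

/-- a configuration with more forced sites than free elements in the lower part dominates the hull
configuration of an element with at least two sites -/
theorem exists_hull (H : Gr P r) {i : ℕ} {e : P → ℕ} (hA : AdmL i e)
    (hlt : pL i e < (AL i e).card) :
    ∃ w, i < lev w ∧ 2 ≤ up i w ∧ ∀ x, ew i w x ≤ e x := by
  classical
  -- some forced site has no private free element
  have hv : ∃ v ∈ AL i e, ∀ x, i < lev x → ¬ FD e x → ¬ GU e x → sts i x ≠ {v} := by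
    by_contra hcon
    push Not at hcon
    choose! g hg using hcon
    have h1 : (AL i e).card ≤ pL i e := by
      unfold pL
      refine Finset.card_le_card_of_injOn g ?_ ?_
      · intro v hv
        have h2 := hg v (Finset.mem_coe.1 hv)
        rw [Finset.mem_coe, Finset.mem_filter]
        exact ⟨mem_univ _, h2.1, h2.2.1, h2.2.2.1⟩
      · intro v hv v' hv' hvv
        have h2 := (hg v (Finset.mem_coe.1 hv)).2.2.2
        have h3 := (hg v' (Finset.mem_coe.1 hv')).2.2.2
        rw [← hvv, h2] at h3
        exact Finset.singleton_injective h3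
    omega
  obtain ⟨v, hvA, hv⟩ := hv
  unfold AL at hvA
  rw [Finset.mem_filter, mem_lv] at hvA
  obtain ⟨hvi, z0, hz0, hlt0⟩ := hvA
  -- maximal label below `v`, minimal level
  obtain ⟨x1, hx1, hmax⟩ := Finset.exists_max_image (univ.filter (fun u : P => u < v)) e
    ⟨z0, by rw [Finset.mem_filter]; exact ⟨mem_univ _, hz0.lt⟩⟩
  obtain ⟨x0, hx0, hmin⟩ := Finset.exists_min_image
    (univ.filter (fun u : P => u < v ∧ e u = e x1)) (fun u => lev u)
    ⟨x1, by rw [Finset.mem_filter] at hx1 ⊢; exact ⟨mem_univ _, hx1.2, rfl⟩⟩
  rw [Finset.mem_filter] at hx1 hx0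
  have hmax' : ∀ t : P, t < v → e t ≤ e x0 := fun t ht => by
    rw [hx0.2.2]
    exact hmax t (by rw [Finset.mem_filter]; exact ⟨mem_univ _, ht⟩)
  have hmin' : ∀ t : P, t < v → e t = e x0 → lev x0 ≤ lev t := fun t ht h => hmin t (by
    rw [Finset.mem_filter]; exact ⟨mem_univ _, ht, h.trans hx0.2.2⟩)
  have hxv : x0 < v := hx0.2.1
  have hlx : i < lev x0 := by
    have := lev_strictAnti hxv
    omega
  have hev : e v < e x0 := lt_of_lt_of_le hlt0 (hmax' z0 hz0.lt)
  have hFD : ¬ FD e x0 := by
    rintro ⟨z, hz, he⟩
    have := hmax' z (hz.lt.trans hxv)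
    omega
  -- `x0` has at least two sites
  have hup : 2 ≤ up i x0 := by
    by_contra hcon
    have h1 : v ∈ sts i x0 := mem_sts.2 ⟨hvi, hxv⟩
    have h2 : sts i x0 = {v} := by
      apply Finset.eq_singleton_iff_unique_mem.2
      refine ⟨h1, fun t ht => ?_⟩
      have h3 : (sts i x0).card ≤ 1 := by
        rw [card_sts]
        omega
      exact Finset.card_le_one.1 h3 t ht v h1
    have hGU : ¬ GU e x0 := by
      rintro ⟨y, hy, he⟩
      have h3 := (H.covBy_iff.1 hy).2
      by_cases hyi : i < lev y
      · obtain ⟨t, ht, ht2⟩ := exists_above' (x := y) (j := i) (by omega)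
        have h4 : t ∈ sts i x0 := mem_sts.2 ⟨ht2, lt_of_lt_of_le hy.lt ht⟩
        rw [h2, Finset.mem_singleton] at h4
        subst h4
        have h5 : y < t := lt_of_le_of_ne ht (by rintro rfl; omega)
        have h6 := hmax' y h5
        have h7 := hmin' y h5 (by omega)
        omega
      · have h4 : y ∈ sts i x0 := mem_sts.2 ⟨by omega, hy.lt⟩
        rw [h2, Finset.mem_singleton] at h4
        subst h4
        omega
    exact hv x0 hlx hFD hGU h2
  -- labels on the way from `x0` to `v`
  have hB4 : ∀ (n : ℕ) (z : P), lev z = i + 1 + n → x0 ≤ z → z < v → n + 1 ≤ e z := by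
    intro n
    induction n with
    | zero =>
      intro z hz hxz hzv
      by_cases hzx : z = x0
      · subst hzx
        omega
      · have hG : ¬ GU e z := by
          intro hG
          have h1 := GU_below H hA (lev x0) z x0 (by omega) hG (by omega) hxz
          have h2 := hmax' z hzv
          have h3 := hmin' z hzv (by omega)
          have h4 := lev_strictAnti (lt_of_le_of_ne hxz (fun h => hzx h.symm))
          omega
        have h1 : z ⋖ v := H.covBy_iff.2 ⟨hzv, by omega⟩
        have h2 : e v < e z := by
          by_contra hc
          exact hG ⟨v, h1, by omega⟩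
        omega
    | succ n ih =>
      intro z hz hxz hzv
      obtain ⟨y, h1, h2⟩ := exists_covBy_le_of_lt hzv
      have h3 := (H.covBy_iff.1 h1).2
      have h4 : y < v := lt_of_le_of_ne h2 (by rintro rfl; omega)
      have h5 := ih y (by omega) (hxz.trans h1.le) h4
      by_cases hzx : z = x0
      · subst hzx
        have h6 := hmax' y h4
        by_cases h7 : e y = e z
        · have h8 := hmin' y h4 h7
          omega
        · omega
      · have hG : ¬ GU e z := by
          intro hG
          have h1 := GU_below H hA (lev x0) z x0 (by omega) hG (by omega) hxz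
          have h2 := hmax' z hzv
          have h3 := hmin' z hzv (by omega)
          have h4 := lev_strictAnti (lt_of_le_of_ne hxz (fun h => hzx h.symm))
          omega
        have h6 : e y < e z := by
          by_contra hc
          exact hG ⟨y, h1, by omega⟩
        omega
  -- all elements above `x0`
  have hB6 : ∀ (n : ℕ) (z : P), lev z = i + 1 + n → x0 ≤ z → n + 1 ≤ e z := by
    intro n
    induction n with
    | zero =>
      intro z hz hxz
      by_cases hzv : z < v
      · exact hB4 0 z hz hxz hzv
      · by_cases hG : GU e z
        · have h1 := GU_below H hA (lev x0) z x0 (by omega) hG (by omega) hxz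
          omega
        · obtain ⟨y, hy⟩ := uc_nonempty H (x := z) (by omega)
          have h6 : e y < e z := by
            by_contra hc
            exact hG ⟨y, mem_uc.1 hy, by omega⟩
          omega
    | succ n ih =>
      intro z hz hxz
      by_cases hzv : z < v
      · exact hB4 (n + 1) z hz hxz hzv
      · by_cases hG : GU e z
        · have h1 := GU_below H hA (lev x0) z x0 (by omega) hG (by omega) hxz
          have h2 := hB4 (lev x0 - (i + 1)) x0 (by omega) le_rfl hxv
          have h3 : lev z ≤ lev x0 := by
            rcases eq_or_lt_of_le hxz with h | h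
            · rw [h]
            · exact (lev_strictAnti h).le
          omega
        · obtain ⟨y, hy⟩ := uc_nonempty H (x := z) (by omega)
          have h3 := lev_uc H hy
          have h5 := ih y (by omega) (hxz.trans (mem_uc.1 hy).le)
          have h6 : e y < e z := by
            by_contra hc
            exact hG ⟨y, mem_uc.1 hy, by omega⟩
          omega
  refine ⟨x0, hlx, hup, fun x => ?_⟩
  unfold ew
  split_ifs with hx
  · by_cases hxi : i < lev x
    · have := hB6 (lev x - (i + 1)) x (by omega) hx
      omega
    · omega
  · exact Nat.zero_le _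

end Pool.Agent.GaussPoset.Win
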