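import Pool.Agent.W_448H_h94.HuB

/-! The term of a hull configuration. -/

namespace Pool.Agent.GaussPoset.Win

set_option linter.unusedSectionVars false

open Finset

universe u

variable {P : Type u} [Fintype P] [PartialOrder P] [DecidableEq P] {r : ℕ}

lemma ew_of_le {i : ℕ} {w x : P} (h : w ≤ x) : ew i w x = lev x - i := by
  unfold ew
  rw [if_pos h]

lemma ew_of_not_le {i : ℕ} {w x : P} (h : ¬ w ≤ x) : ew i w x = 0 := by
  unfold ew
  rw [if_neg h]

lemma ew_pos {i : ℕ} {w x : P} (h : 0 < ew i w x) : w ≤ x := by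
  by_contra hc
  rw [ew_of_not_le hc] at h
  omega

lemma ew_FD (H : Gr P r) {i : ℕ} {w z : P} (hz : i ≤ lev z) : FD (ew i w) z ↔ w < z := by
  constructor
  · rintro ⟨z', h1, h2⟩
    exact lt_of_le_of_lt (ew_pos (lt_of_le_of_lt (Nat.zero_le _) h2)) h1.lt
  · intro h
    obtain ⟨z', h1, h2⟩ := exists_le_covBy_of_lt h
    have h3 := (H.covBy_iff.1 h2).2
    exact ⟨z', h2, by rw [ew_of_le h.le, ew_of_le h1]; omega⟩

lemma ew_GU (H : Gr P r) {i : ℕ} {w z : P} (hz : i < lev z) : GU (ew i w) z ↔ ¬ w ≤ z := by
  constructor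
  · rintro ⟨y, h1, h2⟩ h3
    have h4 := (H.covBy_iff.1 h1).2
    rw [ew_of_le h3, ew_of_le (h3.trans h1.le)] at h2
    omega
  · intro h
    obtain ⟨y, hy⟩ := uc_nonempty H (x := z) (by omega)
    exact ⟨y, mem_uc.1 hy, by rw [ew_of_not_le h]; exact Nat.zero_le _⟩

lemma ew_inj {i : ℕ} {w w' : P} (hw : i < lev w) (hw' : i < lev w') (h : ew i w = ew i w') :
    w = w' := by
  have h1 : 0 < ew i w w := by
    rw [ew_of_le le_rfl]
    omega
  have h2 : 0 < ew i w' w' := by
    rw [ew_of_le le_rfl]
    omega
  rw [h] at h1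
  rw [← h] at h2
  exact le_antisymm (ew_pos h2) (ew_pos h1)

/-- number of lower elements strictly above `w` -/
noncomputable def aw (i : ℕ) (w : P) : ℕ := by
  classical exact (univ.filter (fun z : P => i < lev z ∧ w < z)).card

theorem trm_ew (H : Gr P r) {i : ℕ} (hi : i ≤ r) {w : P} (hw : i < lev w) :
    trm i (ew i w) = xx ^ (aw i w + up i w) * dd ^ ((lv P i).card - up i w + 1) := by
  classical
  have hup : ∀ z : P, lev z < i → ew i w z = 0 := by
    intro z hz
    by_cases h : w ≤ z
    · rw [ew_of_le h]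
      omega
    · exact ew_of_not_le h
  obtain ⟨hU, hAU, haU, hpU⟩ := upp_none H hi hup
  have hL : AdmL i (ew i w) := by
    rintro z hz ⟨h1, h2⟩
    rw [ew_FD H hz.le] at h1
    rw [ew_GU H hz] at h2
    exact h2 h1.le
  have hAL : AL i (ew i w) = sts i w := by
    ext v
    unfold AL
    rw [Finset.mem_filter, mem_lv, mem_sts]
    constructor
    · rintro ⟨h1, h2⟩
      exact ⟨h1, (ew_FD H (by omega)).1 h2⟩
    · rintro ⟨h1, h2⟩
      exact ⟨h1, (ew_FD H (by omega)).2 h2⟩
  have haL : aL i (ew i w) = aw i w := by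
    unfold aL aw
    congr 1
    refine Finset.filter_congr fun z _ => and_congr_right fun hz => ?_
    exact ew_FD H hz.le
  have hpL : pL i (ew i w) = 1 := by
    unfold pL
    rw [Finset.card_eq_one]
    refine ⟨w, ?_⟩
    ext z
    rw [Finset.mem_filter, Finset.mem_singleton]
    constructor
    · rintro ⟨-, h1, h2, h3⟩
      rw [ew_FD H h1.le] at h2
      rw [ew_GU H h1, not_not] at h3
      exact ((lt_or_eq_of_le h3).resolve_left h2).symm
    · rintro rfl
      refine ⟨mem_univ _, hw, ?_, ?_⟩
      · rw [ew_FD H hw.le]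
        exact lt_irrefl _
      · rw [ew_GU H hw]
        exact not_not.2 le_rfl
  unfold trm
  rw [hAU, if_pos (Finset.disjoint_empty_right _)]
  unfold cw
  rw [if_pos ⟨hL, hU⟩, haL, haU, hpU, hpL, hAL, card_sts]
  simp only [Finset.card_empty, Nat.sub_zero, add_zero, pow_zero, mul_one, pow_one]
  rw [pow_add, pow_succ]
  ring

/-- if no element with at least two sites has smaller energy then `w` has exactly two sites -/
lemma up_eq_two (H : Gr P r) {i : ℕ} {w : P} (hw : i < lev w) (h2 : 2 ≤ up i w)
    (hmin : ∀ y : P, i < lev y → 2 ≤ up i y → Ei i w ≤ Ei i y) : up i w = 2 := by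
  classical
  refine le_antisymm ?_ h2
  by_cases h1 : lev w = i + 1
  · exact (energy_one H (j := i) (by have := H.lev_le w; omega)).2.1 w h1
  · have hy : ∀ y ∈ uc w, (sts i y).card ≤ 1 := by
      intro y hy
      by_contra hcon
      rw [card_sts] at hcon
      have h3 := lev_uc H hy
      have h4 := hmin y (by omega) (by omega)
      have h5 : Ei i y < Ei i w := by
        unfold Ei
        have hwy := (mem_uc.1 hy).lt
        refine Finset.sum_lt_sum (fun x _ => ?_) ⟨w, mem_univ _, ?_⟩
        · by_cases hx : y ≤ x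
          · rw [ew_of_le hx, ew_of_le (hwy.le.trans hx)]
          · rw [ew_of_not_le hx]
            exact Nat.zero_le _
        · rw [ew_of_not_le (not_le_of_gt hwy), ew_of_le le_rfl]
          omega
      omega
    have h3 : sts i w ⊆ (uc w).biUnion (sts i) := by
      intro v hv
      rw [mem_sts] at hv
      obtain ⟨y, h4, h5⟩ := exists_covBy_le_of_lt hv.2
      have h6 := (H.covBy_iff.1 h4).2
      rw [Finset.mem_biUnion]
      refine ⟨y, mem_uc.2 h4, mem_sts.2 ⟨hv.1, lt_of_le_of_ne h5 ?_⟩⟩
      rintro rfl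
      omega
    rw [← card_sts]
    calc (sts i w).card ≤ ((uc w).biUnion (sts i)).card := Finset.card_le_card h3
      _ ≤ (uc w).card * 1 := Finset.card_biUnion_le_card_mul _ _ _ hy
      _ ≤ 2 := by rw [mul_one]; exact uc_card_le H w

/-- the number of elements above `w` -/
lemma card_above (H : Gr P r) {i : ℕ} (hi : i ≤ r) (hS : Strt P i) {w : P} (hw : i < lev w) :
    (by classical exact (univ.filter (fun x : P => w ≤ x)).card) =
      1 + aw i w + (i + 1) * up i w := by
  classical
  have h1 : univ.filter (fun x : P => w ≤ x) =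
      ({w} ∪ univ.filter (fun z : P => i < lev z ∧ w < z)) ∪
        (range (i + 1)).biUnion (fun k => (lv P k).filter (fun x => w < x)) := by
    ext x
    simp only [Finset.mem_filter, mem_univ, true_and, Finset.mem_union, Finset.mem_singleton,
      Finset.mem_biUnion, Finset.mem_range, mem_lv]
    constructor
    · intro h
      rcases eq_or_lt_of_le h with h | h
      · exact Or.inl (Or.inl h.symm)
      · by_cases h2 : i < lev x
        · exact Or.inl (Or.inr ⟨h2, h⟩)
        · exact Or.inr ⟨lev x, by omega, rfl, h⟩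
    · rintro ((h | ⟨-, h⟩) | ⟨k, -, -, h⟩)
      · rw [h]
      · exact h.le
      · exact h.le
  rw [h1, Finset.card_union_of_disjoint, Finset.card_union_of_disjoint, Finset.card_singleton,
    Finset.card_biUnion]
  · have h2 : ∑ k ∈ range (i + 1), ((lv P k).filter (fun x => w < x)).card =
        ∑ k ∈ range (i + 1), up i w := by
      refine Finset.sum_congr rfl fun k hk => ?_
      rw [Finset.mem_range] at hk
      have h3 := up_const H hi hS hw k (by omega)
      rw [← h3]
      rfl
    rw [h2, Finset.sum_const, Finset.card_range, smul_eq_mul]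
    congr 1
  · intro k _ l _ hkl
    rw [Function.onFun, Finset.disjoint_left]
    intro x hx hx'
    rw [Finset.mem_filter, mem_lv] at hx hx'
    exact hkl (hx.1.symm.trans hx'.1)
  · rw [Finset.disjoint_left]
    intro x hx hx'
    rw [Finset.mem_singleton] at hx
    subst hx
    rw [Finset.mem_filter] at hx'
    exact lt_irrefl _ hx'.2.2
  · rw [Finset.disjoint_left]
    intro x hx hx'
    rw [Finset.mem_biUnion] at hx'
    obtain ⟨k, hk, hx'⟩ := hx'
    rw [Finset.mem_range] at hk
    rw [Finset.mem_filter, mem_lv] at hx'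
    rw [Finset.mem_union, Finset.mem_singleton, Finset.mem_filter] at hx
    rcases hx with rfl | ⟨-, hx, -⟩
    · omega
    · omega

end Pool.Agent.GaussPoset.Win
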