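import Pool.Agent.W_448H_h94.HuC

/-! Parity of the sizes of the principal filters of the joins with minimal hull energy. -/

namespace Pool.Agent.GaussPoset.Win

set_option linter.unusedSectionVars false

open Finset

universe u

variable {P : Type u} [Fintype P] [PartialOrder P] [DecidableEq P] {r : ℕ}

open Classical in
/-- Hull parity. Let the levels `0, …, i` have the same size and let every element below the window
with at least two sites have hull energy at least `E`. Then the principal filters of those with hull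
energy exactly `E` have signed count zero. -/
theorem hull_parity (H : Gr P r) {i : ℕ} (hi : i ≤ r) (hS : Strt P i) (E : ℕ)
    (hE : ∀ w : P, i < lev w → 2 ≤ up i w → E ≤ Ei i w) :
    ∑ w ∈ univ.filter (fun w : P => i < lev w ∧ 2 ≤ up i w ∧ Ei i w = E),
      (-1 : ℤ) ^ (univ.filter (fun x : P => w ≤ x)).card = 0 := by
  set J : Finset P := univ.filter (fun w : P => i < lev w ∧ 2 ≤ up i w ∧ Ei i w = E) with hJ
  have hJm : ∀ w, w ∈ J ↔ i < lev w ∧ 2 ≤ up i w ∧ Ei i w = E := by
    intro w
    rw [hJ, Finset.mem_filter]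
    exact ⟨fun h => h.2, fun h => ⟨mem_univ _, h⟩⟩
  have hJ2 : ∀ w ∈ J, up i w = 2 := by
    intro w hw
    rw [hJm] at hw
    exact up_eq_two H hw.1 hw.2.1 (fun y h1 h2 => by rw [hw.2.2]; exact hE y h1 h2)
  rcases J.eq_empty_or_nonempty with h0 | ⟨w0, hw0⟩
  · rw [h0, Finset.sum_empty]
  -- at least two sites
  have hM2 : 2 ≤ (lv P i).card := by
    rw [← hJ2 w0 hw0]
    exact up_le i w0
  -- the sum over all configurations
  have h1 := dvd_sum_trm H hi E
  have himg : ∀ w ∈ J, ew i w ∈ (univ : Finset P).piAntidiag E := by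
    intro w hw
    rw [Finset.mem_piAntidiag]
    exact ⟨((hJm w).1 hw).2.2, fun x _ => mem_univ x⟩
  have hsub : J.image (ew i) ⊆ (univ : Finset P).piAntidiag E := by
    intro e he
    rw [Finset.mem_image] at he
    obtain ⟨w, hw, rfl⟩ := he
    exact himg w hw
  rw [← Finset.sum_sdiff hsub] at h1
  have h2 : dd ^ (lv P i).card ∣
      ∑ e ∈ (univ : Finset P).piAntidiag E \ J.image (ew i), trm i e := by
    refine Finset.dvd_sum fun e he => ?_
    rw [Finset.mem_sdiff, Finset.mem_piAntidiag] at he
    obtain ⟨⟨hsum0, -⟩, hne⟩ := he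
    have hsum : ∑ x, e x = E := hsum0
    have hch : Cheap 0 i e := by
      by_contra hcon
      unfold Cheap at hcon
      push Not at hcon
      obtain ⟨hA, hB, hd, hlt⟩ := hcon
      have h3 := AU_le H hi hS e
      obtain ⟨w, hw1, hw2, hw3⟩ := exists_hull H hA (by omega)
      have h4 := hE w hw1 hw2
      have h5 : ∑ x, ew i w x ≤ ∑ x, e x := Finset.sum_le_sum fun x _ => hw3 x
      have hEi : Ei i w = ∑ x, ew i w x := rfl
      have h6 : Ei i w = E := by omega
      have h7 : ew i w = e := by
        have h8 : ∑ x, ew i w x = ∑ x, e x := by omega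
        have h9 := (Finset.sum_eq_sum_iff_of_le (fun x _ => hw3 x)).1 h8
        funext x
        exact h9 x (mem_univ x)
      exact hne (Finset.mem_image.2 ⟨w, (hJm w).2 ⟨hw1, hw2, h6⟩, h7⟩)
    have h3 := dvd_trm_of_cheap hch
    rwa [Nat.sub_zero] at h3
  rw [dvd_add_right h2, Finset.sum_image] at h1
  · have h4 : ∑ w ∈ J, trm i (ew i w) =
        dd ^ ((lv P i).card - 1) * ∑ w ∈ J, xx ^ (aw i w + 2) := by
      rw [Finset.mul_sum]
      refine Finset.sum_congr rfl fun w hw => ?_
      rw [trm_ew H hi ((hJm w).1 hw).1, hJ2 w hw,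
        show (lv P i).card - 2 + 1 = (lv P i).card - 1 by omega, mul_comm]
    have h5 : (lv P i).card = (lv P i).card - 1 + 1 := by omega
    rw [h4, h5, Nat.add_sub_cancel] at h1
    have h6 := cc_of_dvd h1
    rw [map_sum] at h6
    have h7 : ∀ w ∈ J, (-1 : ℤ) ^ (univ.filter (fun x : P => w ≤ x)).card =
        - PowerSeries.constantCoeff (xx ^ (aw i w + 2)) := by
      intro w hw
      have h8 := card_above H hi hS ((hJm w).1 hw).1
      rw [hJ2 w hw] at h8
      rw [map_pow, cc_xx, h8, pow_add, pow_add, pow_add, mul_comm (i + 1) 2, pow_mul]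
      simp
    rw [Finset.sum_congr rfl h7, Finset.sum_neg_distrib, h6, neg_zero]
  · intro w hw w' hw' hww
    exact ew_inj ((hJm w).1 hw).1 ((hJm w').1 hw').1 hww

end Pool.Agent.GaussPoset.Win
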